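import Pool.Agent.Y761.GS.Bcm1

/-!
# Project GS: base change of a model (BCM)
-/

set_option autoImplicit false

namespace Pool.Agent.Y761.GS

open MvPolynomial TensorProduct Pool.Agent.Y234.GS

section

variable (k k1 : Type) {L : Type} [Field k] [Field k1] [Field L] [Algebra k k1] [Algebra k L]

/-- Linear independence in the tensor product. -/
lemma indep_T {n : ℕ} {v : Fin n → L} (hv : LinearIndependent k v) (c : Fin n → k1)
    (hc : ∑ i, c i ⊗ₜ[k] v i = 0) (i : Fin n) : c i = 0 := by
  obtain ⟨g, hg⟩ := LinearMap.exists_extend ((Finsupp.lapply i).comp hv.repr)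
  have hgv : ∀ j, g (v j) = (Finsupp.single j (1 : k)) i := by
    intro j
    have h1 := LinearMap.congr_fun hg
      (⟨v j, Submodule.subset_span ⟨j, rfl⟩⟩ : Submodule.span k (Set.range v))
    change g (v j) = (hv.repr ⟨v j, Submodule.subset_span ⟨j, rfl⟩⟩) i at h1
    rw [h1, hv.repr_eq_single j _ rfl]
  have h2 := congrArg ((TensorProduct.rid k k1).toLinearMap.comp (g.lTensor k1)) hc
  rw [map_zero, map_sum, Finset.sum_eq_single i] at h2
  · change (TensorProduct.rid k k1) (g.lTensor k1 (c i ⊗ₜ[k] v i)) = 0 at h2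
    rw [LinearMap.lTensor_tmul, TensorProduct.rid_tmul, hgv, Finsupp.single_eq_same,
      one_smul] at h2
    exact h2
  · intro j _ hj
    change (TensorProduct.rid k k1) (g.lTensor k1 (c j ⊗ₜ[k] v j)) = 0
    rw [LinearMap.lTensor_tmul, TensorProduct.rid_tmul, hgv, Finsupp.single_eq_of_ne (Ne.symm hj),
      zero_smul]
  · intro h
    exact absurd (Finset.mem_univ i) h

end

section data

variable {k k1 L L1 ι : Type} [Field k] [Field k1] [Field L] [Field L1] [Algebra k k1]
  [Algebra k L] [Algebra k L1] [Algebra L L1] [Algebra k1 L1] [IsScalarTower k L L1]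
  [IsScalarTower k k1 L1] {x : ι → L}

/-- The map from the tensor product. -/
noncomputable def jj (k k1 L L1 : Type) [Field k] [Field k1] [Field L] [Field L1] [Algebra k k1]
    [Algebra k L] [Algebra k L1] [Algebra L L1] [Algebra k1 L1] [IsScalarTower k L L1]
    [IsScalarTower k k1 L1] : k1 ⊗[k] L →ₐ[k1] L1 :=
  Algebra.TensorProduct.lift (Algebra.ofId k1 L1) (IsScalarTower.toAlgHom k L L1)
    (fun _ _ => Commute.all _ _)

lemma jj_tmul (c : k1) (l : L) : jj k k1 L L1 (c ⊗ₜ l) = c • algebraMap L L1 l := by
  rw [jj, Algebra.TensorProduct.lift_tmul, Algebra.smul_def]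
  rfl

lemma jj_evT (G : MvPolynomial ι k1) :
    jj k k1 L L1 (evT k k1 x G) = aeval (fun i => algebraMap L L1 (x i)) G := by
  unfold evT
  rw [MvPolynomial.comp_aeval_apply]
  congr 1
  congr 1
  funext i
  rw [jj_tmul, one_smul]

lemma aeval_map (H : MvPolynomial ι k) :
    aeval (fun i => algebraMap L L1 (x i)) (map (algebraMap k k1) H) =
      algebraMap L L1 (aeval x H) := by
  rw [← jj_evT (k := k), evT_map, jj_tmul, one_smul]

variable (hj : Function.Injective (jj k k1 L L1))

include hj in
lemma rel_span {G : MvPolynomial ι k1} (hG : aeval (fun i => algebraMap L L1 (x i)) G = 0) :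
    G ∈ Submodule.span k1 {G' | ∃ H : MvPolynomial ι k, aeval x H = 0 ∧
      G' = map (algebraMap k k1) H} := by
  apply span_of_evT
  apply hj
  rw [map_zero, jj_evT, hG]

include hj in
theorem tan_eq [Fintype ι] (y : ι → k1) : Tan k x y = Tan k1 (fun i => algebraMap L L1 (x i)) y := by
  apply le_antisymm
  · intro v hv G hG
    have h1 := rel_span hj hG
    clear hG
    induction h1 using Submodule.span_induction with
    | mem G' h =>
      obtain ⟨H, hH, rfl⟩ := h
      rw [← hv H hH]
      refine Finset.sum_congr rfl fun l _ => ?_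
      rw [pderiv_map, aeval_map_algebraMap]
    | zero => simp
    | add a b _ _ ha hb =>
      rw [← add_zero (0 : k1)]
      nth_rw 1 [← ha]
      rw [← hb, ← Finset.sum_add_distrib]
      refine Finset.sum_congr rfl fun l _ => ?_
      rw [map_add, map_add, add_mul]
    | smul c a _ ha =>
      rw [← mul_zero c, ← ha, Finset.mul_sum]
      refine Finset.sum_congr rfl fun l _ => ?_
      rw [Derivation.map_smul, map_smul, smul_eq_mul, mul_assoc]
  · intro v hv G hG
    rw [← hv (map (algebraMap k k1) G) (by rw [aeval_map, hG, map_zero])]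
    refine Finset.sum_congr rfl fun l _ => ?_
    rw [pderiv_map, aeval_map_algebraMap]

lemma homogeneousComponent_map (d : ℕ) (H : MvPolynomial ι k) :
    homogeneousComponent d (map (algebraMap k k1) H) =
      map (algebraMap k k1) (homogeneousComponent d H) := by
  ext m
  rw [coeff_homogeneousComponent, coeff_map, coeff_map, coeff_homogeneousComponent]
  split_ifs
  · rfl
  · rw [map_zero]

include hj in
theorem hom_L1 [Fintype ι] (hx : Model k x) (G : MvPolynomial ι k1)
    (hG : aeval (fun i => algebraMap L L1 (x i)) G = 0) (d : ℕ) :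
    aeval (fun i => algebraMap L L1 (x i)) (homogeneousComponent d G) = 0 := by
  have h1 := rel_span hj hG
  clear hG
  induction h1 using Submodule.span_induction with
  | mem G' h =>
    obtain ⟨H, hH, rfl⟩ := h
    rw [homogeneousComponent_map, aeval_map, hx.hom H hH, map_zero]
  | zero => simp
  | add a b _ _ ha hb => rw [map_add, map_add, ha, hb, add_zero]
  | smul c a _ ha => rw [map_smul, map_smul, ha, smul_zero]

include hj in
theorem disj_L1 : Disj k k1 L L1 := by
  intro n v hv
  rw [Fintype.linearIndependent_iff]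
  intro c hc i
  refine indep_T k k1 hv c ?_ i
  apply hj
  rw [map_zero, map_sum, ← hc]
  exact Finset.sum_congr rfl fun l _ => jj_tmul _ _

include hj in
theorem smooth_L1 [Fintype ι] (hs : SmoothCharts k x) : SmoothCharts k1 (fun i => algebraMap L L1 (x i)) := by
  intro i
  let B := Algebra.adjoin k (insert (x i)⁻¹ (Set.range x))
  have hB : Algebra.Smooth k B := hs i
  let f : k1 ⊗[k] B →ₐ[k1] L1 := (jj k k1 L L1).comp
    (Algebra.TensorProduct.map (AlgHom.id k1 k1) B.val)
  have hf : Function.Injective f := by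
    have h1 := Module.Flat.lTensor_preserves_injective_linearMap (M := k1) B.val.toLinearMap
      Subtype.val_injective
    exact hj.comp h1
  have hft : ∀ (c : k1) (b : B), f (c ⊗ₜ b) = c • algebraMap L L1 (b : L) := by
    intro c b
    change jj k k1 L L1 (c ⊗ₜ (b : L)) = _
    rw [jj_tmul]
  have hr : f.range = Algebra.adjoin k1 (insert (algebraMap L L1 (x i))⁻¹
      (Set.range (fun i => algebraMap L L1 (x i)))) := by
    apply le_antisymm
    · rintro _ ⟨t, rfl⟩
      change f t ∈ _
      induction t using TensorProduct.induction_on with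
      | zero => rw [map_zero]; exact zero_mem _
      | tmul c b =>
        rw [hft]
        refine Subalgebra.smul_mem _ ?_ c
        obtain ⟨b, hb⟩ := b
        change algebraMap L L1 b ∈ _
        induction hb using Algebra.adjoin_induction with
        | mem z hz =>
          apply Algebra.subset_adjoin
          rcases hz with rfl | ⟨l, rfl⟩
          · left
            rw [map_inv₀]
          · right
            exact ⟨l, rfl⟩
        | algebraMap r =>
          rw [← IsScalarTower.algebraMap_apply, IsScalarTower.algebraMap_apply k k1 L1]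
          exact Subalgebra.algebraMap_mem _ _
        | add a b _ _ ha hb => rw [map_add]; exact add_mem ha hb
        | mul a b _ _ ha hb => rw [map_mul]; exact mul_mem ha hb
      | add a b ha hb => rw [map_add]; exact add_mem ha hb
    · apply Algebra.adjoin_le
      rintro _ (rfl | ⟨l, rfl⟩)
      · refine ⟨(1 : k1) ⊗ₜ ⟨(x i)⁻¹, Algebra.subset_adjoin (Set.mem_insert _ _)⟩, ?_⟩
        change f _ = _
        rw [hft, one_smul, map_inv₀]
      · refine ⟨(1 : k1) ⊗ₜ ⟨x l, Algebra.subset_adjoin (Set.mem_insert_of_mem _ ⟨l, rfl⟩)⟩, ?_⟩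
        change f _ = _
        rw [hft, one_smul]
  have h2 : Algebra.Smooth k1 f.range := Algebra.Smooth.of_equiv (AlgEquiv.ofInjective f hf)
  rw [hr] at h2
  exact h2

include hj in
theorem alg_indep {σ : Type} {s : σ → L} (hs : AlgebraicIndependent k s) :
    AlgebraicIndependent k1 (fun i => algebraMap L L1 (s i)) := by
  rw [algebraicIndependent_iff]
  intro G hG
  have h1 := rel_span hj hG
  have h2 : {G' | ∃ H : MvPolynomial σ k, aeval s H = 0 ∧ G' = map (algebraMap k k1) H} ⊆
      {(0 : MvPolynomial σ k1)} := by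
    rintro _ ⟨H, hH, rfl⟩
    have h3 : H = 0 := (algebraicIndependent_iff.1 hs) H hH
    rw [h3, map_zero]
    rfl
  have h4 := Submodule.span_mono (R := k1) h2 h1
  rwa [Submodule.span_singleton_eq_bot.2 rfl, Submodule.mem_bot] at h4

include hj in
theorem trdeg_L1 [Fintype ι] (hgen : ∀ a : L1, ∃ G H : MvPolynomial ι k1,
      aeval (fun i => algebraMap L L1 (x i)) H ≠ 0 ∧
        a * aeval (fun i => algebraMap L L1 (x i)) H = aeval (fun i => algebraMap L L1 (x i)) G) :
    Algebra.trdeg k1 L1 = Algebra.trdeg k L := by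
  obtain ⟨σ, s, hs⟩ := exists_isTranscendenceBasis' k L
  have hs1 := (isTranscendenceBasis_iff_algebraicIndependent_isAlgebraic.1 hs)
  have hi := alg_indep hj hs1.1
  have halg := hs1.2
  let E0 := Algebra.adjoin k (Set.range s)
  let E := Algebra.adjoin k1 (Set.range (fun i => algebraMap L L1 (s i)))
  have hE : ∀ e : E0, algebraMap L L1 (e : L) ∈ E := by
    rintro ⟨e, he⟩
    change algebraMap L L1 e ∈ E
    induction he using Algebra.adjoin_induction with
    | mem z hz =>
      obtain ⟨l, rfl⟩ := hz
      exact Algebra.subset_adjoin ⟨l, rfl⟩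
    | algebraMap r =>
      rw [← IsScalarTower.algebraMap_apply, IsScalarTower.algebraMap_apply k k1 L1]
      exact Subalgebra.algebraMap_mem _ _
    | add a b _ _ ha hb => rw [map_add]; exact add_mem ha hb
    | mul a b _ _ ha hb => rw [map_mul]; exact mul_mem ha hb
  let f : E0 →+* E := ((algebraMap L L1).comp E0.val.toRingHom).codRestrict E.toSubring hE
  have hf : Function.Injective f := by
    intro a b hab
    have h1 : algebraMap L L1 (a : L) = algebraMap L L1 (b : L) := congrArg Subtype.val hab
    exact Subtype.ext ((algebraMap L L1).injective h1)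
  have hX : ∀ i, IsAlgebraic E (algebraMap L L1 (x i)) := by
    intro i
    have h1 : IsAlgebraic E0 (x i) := halg.isAlgebraic (x i)
    exact h1.ringHom_of_comp_eq f (algebraMap L L1) hf rfl
  have hG : ∀ G : MvPolynomial ι k1, IsAlgebraic E
      (aeval (fun i => algebraMap L L1 (x i)) G) := by
    intro G
    induction G using MvPolynomial.induction_on with
    | C c =>
      rw [MvPolynomial.algHom_C, IsScalarTower.algebraMap_apply k1 E L1]
      exact isAlgebraic_algebraMap _
    | add p q hp hq => rw [map_add]; exact hp.add hq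
    | mul_X p i hp => rw [map_mul, aeval_X]; exact hp.mul (hX i)
  have hfin : Algebra.IsAlgebraic E L1 := by
    constructor
    intro a
    obtain ⟨G, H, hH, h⟩ := hgen a
    have h1 : a = aeval (fun i => algebraMap L L1 (x i)) G *
        (aeval (fun i => algebraMap L L1 (x i)) H)⁻¹ := by
      rw [← h, mul_assoc, mul_inv_cancel₀ hH, mul_one]
    rw [h1]
    exact (hG G).mul (hG H).inv
  have hb : IsTranscendenceBasis k1 (fun i => algebraMap L L1 (s i)) :=
    isTranscendenceBasis_iff_algebraicIndependent_isAlgebraic.2 ⟨hi, hfin⟩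
  rw [← hb.cardinalMk_eq_trdeg, ← hs.cardinalMk_eq_trdeg]

end data

/-- BCM: base change of a model. -/
theorem bcm : S_BCM := by
  intro k k1 L ι _ _ _ _ _ _ _ x D hx hD
  have hdom : IsDomain (k1 ⊗[k] L) := isDomain_T k k1 x hx.gen
  let L1 := FractionRing (k1 ⊗[k] L)
  let a1 : Algebra L L1 := ((algebraMap (k1 ⊗[k] L) L1).comp
    (Algebra.TensorProduct.includeRight : L →ₐ[k] k1 ⊗[k] L).toRingHom).toAlgebra
  have t1 : IsScalarTower k L L1 := by
    apply IsScalarTower.of_algebraMap_eq
    intro c
    rw [IsScalarTower.algebraMap_apply k (k1 ⊗[k] L) L1]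
    change _ = algebraMap (k1 ⊗[k] L) L1 (Algebra.TensorProduct.includeRight (algebraMap k L c))
    rw [AlgHom.commutes]
  have t2 : IsScalarTower k k1 L1 := inferInstance
  have hjt : ∀ t, jj k k1 L L1 t = algebraMap (k1 ⊗[k] L) L1 t := by
    intro t
    induction t using TensorProduct.induction_on with
    | zero => rw [map_zero, map_zero]
    | tmul c l =>
      rw [jj_tmul]
      change c • (algebraMap (k1 ⊗[k] L) L1 ((1 : k1) ⊗ₜ l)) = _
      rw [Algebra.smul_def, IsScalarTower.algebraMap_apply k1 (k1 ⊗[k] L) L1, ← map_mul]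
      congr 1
      change (c ⊗ₜ[k] (1 : L)) * ((1 : k1) ⊗ₜ[k] l) = _
      rw [Algebra.TensorProduct.tmul_mul_tmul, mul_one, one_mul]
    | add a b ha hb => rw [map_add, map_add, ha, hb]
  have hj : Function.Injective (jj k k1 L L1) := by
    intro a b hab
    rw [hjt, hjt] at hab
    exact IsFractionRing.injective (k1 ⊗[k] L) L1 hab
  have hgT : ∀ t : k1 ⊗[k] L, ∃ G H : MvPolynomial ι k1,
      aeval (fun i => algebraMap L L1 (x i)) H ≠ 0 ∧
        jj k k1 L L1 t * aeval (fun i => algebraMap L L1 (x i)) H =
          aeval (fun i => algebraMap L L1 (x i)) G := by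
    intro t
    obtain ⟨H, G, hH, h⟩ := exists_den k k1 x hx.gen t
    refine ⟨G, map (algebraMap k k1) H, ?_, ?_⟩
    · rw [aeval_map]
      exact (map_ne_zero _).2 hH
    · rw [← jj_evT (k := k), ← jj_evT (k := k), ← h, map_mul]
  have hgen : ∀ a : L1, ∃ G H : MvPolynomial ι k1,
      aeval (fun i => algebraMap L L1 (x i)) H ≠ 0 ∧
        a * aeval (fun i => algebraMap L L1 (x i)) H =
          aeval (fun i => algebraMap L L1 (x i)) G := by
    intro a
    obtain ⟨t, t', ht', rfl⟩ := IsFractionRing.div_surjective (A := k1 ⊗[k] L) a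
    obtain ⟨G, H, hH, h⟩ := hgT t
    obtain ⟨G', H', hH', h'⟩ := hgT t'
    rw [hjt] at h h'
    have ht0 : algebraMap (k1 ⊗[k] L) L1 t' ≠ 0 :=
      IsFractionRing.to_map_ne_zero_of_mem_nonZeroDivisors ht'
    refine ⟨G * H', H * G', ?_, ?_⟩
    · rw [map_mul, ← h']
      exact mul_ne_zero hH (mul_ne_zero ht0 hH')
    · rw [map_mul, map_mul, ← h, ← h', div_mul_eq_mul_div, div_eq_iff ht0]
      ring
  refine ⟨L1, inferInstance, inferInstance, a1, inferInstance, t1, t2, disj_L1 hj,
    ⟨fun i => (map_ne_zero _).2 (hx.ne i), hom_L1 hj hx, hgen⟩, ?_, smooth_L1 hj,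
    fun y => tan_eq hj y⟩
  rw [trdeg_L1 hj hgen, hD]

end Pool.Agent.Y761.GS
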