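import Pool.Agent.Y761.GS.Kl3

/-!
# Project GS: assembly of the top level theorem, part 4
-/

set_option autoImplicit false
set_option linter.unusedSectionVars false

namespace Pool.Agent.Y761.GS

open MvPolynomial Pool.Agent.Y234.GS

section cover

variable {O L1 : Type} [CommRing O] [Field L1] [Algebra O L1] {ι : Type} [Fintype ι]

lemma cover_self (y : ι → L1) : Cover (Submodule.span O (Set.range y)) y := by
  refine ⟨0, fun a ha => ?_⟩
  rw [zero_add, pow_one] at ha
  obtain ⟨c, rfl⟩ := (Submodule.mem_span_range_iff_exists_fun O).1 ha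
  refine ⟨fun i => algebraMap O L1 (c i), fun i => ?_, ?_⟩
  · rw [pow_zero, Submodule.mem_one]
    exact ⟨_, rfl⟩
  · exact Finset.sum_congr rfl fun i _ => by rw [Algebra.smul_def, mul_comm]

end cover

section indep

variable {k O k1 L1 : Type} [Field k] [CommRing O] [IsDomain O] [Field k1] [Field L1]
  [Algebra k O] [Algebra O k1] [Algebra k k1] [IsScalarTower k O k1]
  [IsFractionRing O k1] [Algebra k1 L1] [Algebra O L1] [Algebra k L1]
  [IsScalarTower O k1 L1] [IsScalarTower k k1 L1] {D : ℕ}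
  {ψ : Fin D → L1} {t : O}

lemma zero_of_dvd (ht : Irreducible t) {α : k} {o : O}
    (h : algebraMap k k1 α = algebraMap O k1 (t * o)) : α = 0 := by
  by_contra hα
  rw [IsScalarTower.algebraMap_apply k O k1] at h
  have h1 := IsFractionRing.injective O k1 h
  have h2 : IsUnit (algebraMap k O α) := (IsUnit.mk0 _ hα).map _
  rw [h1] at h2
  exact ht.not_isUnit (isUnit_of_mul_isUnit_left h2)

lemma indep_mod (ht : Irreducible t)
    (hG : ∀ F : MvPolynomial (Fin D) k1, aeval ψ F ∈ GDt t ψ →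
      ∀ b, ∃ o : O, coeff b F = algebraMap O k1 (t * o)) {i j : Fin D} (hij : i ≠ j) (α β : k)
    (h : α • ψ i + β • ψ j ∈ GDt t ψ) : α = 0 ∧ β = 0 := by
  classical
  have h1 : aeval ψ (C (algebraMap k k1 α) * X i + C (algebraMap k k1 β) * X j :
      MvPolynomial (Fin D) k1) = α • ψ i + β • ψ j := by
    rw [map_add, map_mul, map_mul, aeval_X, aeval_X, aeval_C, aeval_C,
      ← IsScalarTower.algebraMap_apply, ← IsScalarTower.algebraMap_apply, Algebra.smul_def,
      Algebra.smul_def]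
  rw [← h1] at h
  have hne : (Finsupp.single i 1 : Fin D →₀ ℕ) ≠ Finsupp.single j 1 := by
    intro h2
    exact hij ((Finsupp.single_left_inj one_ne_zero).1 h2)
  constructor
  · obtain ⟨o, ho⟩ := hG _ h (Finsupp.single i 1)
    rw [coeff_add, coeff_C_mul, coeff_C_mul, coeff_X, coeff_X, if_pos rfl, if_neg hne.symm,
      mul_one, mul_zero, add_zero] at ho
    exact zero_of_dvd ht ho
  · obtain ⟨o, ho⟩ := hG _ h (Finsupp.single j 1)
    rw [coeff_add, coeff_C_mul, coeff_C_mul, coeff_X, coeff_X, if_pos rfl, if_neg hne,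
      mul_one, mul_zero, zero_add] at ho
    exact zero_of_dvd ht ho

end indep

section core

variable {k O k1 L L1 ι : Type} [Field k] [IsAlgClosed k] [CommRing O] [IsDomain O]
  [IsDiscreteValuationRing O] [Field k1] [Field L] [Field L1] [Algebra k O] [Algebra O k1]
  [IsFractionRing O k1] [Algebra k k1] [IsScalarTower k O k1] [Algebra k L] [Algebra k L1]
  [Algebra k1 L1] [Algebra L L1] [Algebra O L1] [IsScalarTower O k1 L1] [IsScalarTower k O L1]
  [IsScalarTower k k1 L1] [IsScalarTower k L L1] [LinearOrder ι] [Fintype ι] {x : ι → L}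
  {w : ι → ℕ} {p D : ℕ}

/-- The core of the argument: generic forms. -/
lemma exists_psi (hNND : S_NND) (hPSI1 : S_PSI1) (hPSI2 : S_PSI2) (t : O) (ht : Irreducible t)
    (hres : ∀ o : O, ∃ c : k, t ∣ o - algebraMap k O c) (hD : 2 ≤ D) (hdisj : Disj k k1 L L1)
    (hM : Model k x) (htr : Algebra.trdeg k L = (D : Cardinal))
    (hM1 : Model k1 (fun i => algebraMap L L1 (x i)))
    (htr1 : Algebra.trdeg k1 L1 = (D : Cardinal)) :
    ∃ v : Fin D × ι → k,
      Cover (Submodule.span O (Set.range (ys L1 x w t)))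
        (fun l => ∑ i, v (l, i) • ys L1 x w t i) ∧
      AlgebraicIndependent k1 (fun l => ∑ i, v (l, i) • ys L1 x w t i) ∧
      FiniteDimensional (IntermediateField.adjoin k1
        (Set.range (fun l => ∑ i, v (l, i) • ys L1 x w t i))) L1 ∧
      Algebra.IsSeparable (IntermediateField.adjoin k1
        (Set.range (fun l => ∑ i, v (l, i) • ys L1 x w t i))) L1 := by
  have hinf : Infinite k := IsAlgClosed.instInfinite
  have hinf1 : Infinite k1 := Infinite.of_injective _ (algebraMap k k1).injective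
  obtain ⟨-, hgr, -⟩ := hNND k1 L1 ι (fun i => algebraMap L L1 (x i)) D hM1 htr1
  obtain ⟨C1, hC1⟩ := hgr (by omega)
  obtain ⟨Φ1, hΦ1, h1⟩ := hPSI1 k O k1 L1 ι t (fun i => algebraMap L L1 (x i)) w D C1 ht hres hM1
    (by omega) hC1
  obtain ⟨Φ2, hΦ2, h2⟩ := hPSI2 k k1 L L1 ι x (fun i => algebraMap O k1 (t ^ w i)) D hdisj hM hM1
    (fun i => by
      rw [map_pow]
      exact pow_ne_zero _ ((map_ne_zero_iff _ (IsFractionRing.injective O k1)).2 ht.ne_zero)) htr
  obtain ⟨v, hv⟩ : ∃ v : Fin D × ι → k, eval v (Φ1 * Φ2) ≠ 0 := by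
    by_contra hcon
    push Not at hcon
    exact mul_ne_zero hΦ1 hΦ2 (MvPolynomial.funext fun v => by rw [hcon v, map_zero])
  rw [map_mul] at hv
  have h3 := h1 v (left_ne_zero_of_mul hv)
  have h4 := h2 v (right_ne_zero_of_mul hv)
  have h5 : (fun l => ∑ i, v (l, i) • (algebraMap O k1 (t ^ w i) • algebraMap L L1 (x i))) =
      (fun l => ∑ i, v (l, i) • ys L1 x w t i) := by
    funext l
    refine Finset.sum_congr rfl fun i _ => ?_
    rw [ys, algebraMap_smul]
  rw [h5] at h4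
  exact ⟨v, h3, h4⟩

/-- The core of the argument. -/
lemma kl_core (hTOP : S_TOP) (hRCH : S_RCH) (hNND : S_NND) (hFG : S_FG) (hREG : S_REG)
    (hLAM : S_LAM) (hEXT : S_EXT) (hPHI : S_PHI) (hGAU : S_GAU) (hKLH : S_KLH) (hPSI1 : S_PSI1)
    (hPSI2 : S_PSI2) (hDEDE : S_DEDE) (hTF : S_TFALL) (t : O) (ht : Irreducible t)
    (hres : ∀ o : O, ∃ c : k, t ∣ o - algebraMap k O c) (hp : p.Prime) (hchar : CharP k p)
    (hD : 2 ≤ D) (hdisj : Disj k k1 L L1)
    (hM : Model k x) (hS : SmoothCharts k x) (htr : Algebra.trdeg k L = (D : Cardinal))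
    (hM1 : Model k1 (fun i => algebraMap L L1 (x i)))
    (htr1 : Algebra.trdeg k1 L1 = (D : Cardinal)) (hw : Function.Injective w)
    {c0 : Finset ι → L} (hc0 : WCocyc k x w 0 0 D c0) : Cobd (VV k x) x 0 D c0 := by
  by_contra hnot
  have hinf : Infinite k := IsAlgClosed.instInfinite
  obtain ⟨ell, hell, hellc⟩ := exists_ell x hD hnot
  obtain ⟨⟨vθ, hθ1, hθ2⟩, -, -⟩ := hNND k L ι x D hM htr
  have hxV : ∀ i, x i ∈ VV k x := fun i => Submodule.subset_span (Set.mem_range_self i)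
  obtain ⟨n, d, χ, hχ, hfg⟩ := hFG k L ι x D (fun l => ∑ i, vθ l i • x i) hD hM
    (fun l => Submodule.sum_mem _ fun i _ => Submodule.smul_mem _ _ (hxV i)) hθ1 hθ2
  obtain ⟨v, hcW, halg, hfd, hsep⟩ := exists_psi (w := w) hNND hPSI1 hPSI2 t ht hres hD hdisj hM
    htr hM1 htr1
  have hcW' := hcW
  obtain ⟨ψ, hψdef⟩ : ∃ ψ : Fin D → L1, ψ = fun l => ∑ i, v (l, i) • ys L1 x w t i := ⟨_, rfl⟩
  rw [← hψdef] at hcW halg hfd hsep
  have hu : ∀ i, algebraMap O k1 (t ^ w i) ≠ 0 := fun i => by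
    rw [map_pow]
    exact pow_ne_zero _ ((map_ne_zero_iff _ (IsFractionRing.injective O k1)).2 ht.ne_zero)
  have hyu : ∀ i, ys L1 x w t i = algebraMap O k1 (t ^ w i) • algebraMap L L1 (x i) := fun i => by
    rw [ys, algebraMap_smul]
  have hXV : ∀ i, algebraMap L L1 (x i) ∈ VV k1 (fun i => algebraMap L L1 (x i)) :=
    fun i => Submodule.subset_span (Set.mem_range_self (f := fun i => algebraMap L L1 (x i)) i)
  have hyW : ∀ i, ys L1 x w t i ∈ Submodule.span O (Set.range (ys L1 x w t)) :=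
    fun i => Submodule.subset_span (Set.mem_range_self i)
  have hy0 : ∀ i, ys L1 x w t i ≠ 0 := fun i => by
    rw [hyu]
    exact smul_ne_zero (hu i) ((map_ne_zero _).2 (hM.ne i))
  have hψW : ∀ l, ψ l ∈ Submodule.span O (Set.range (ys L1 x w t)) := by
    intro l
    rw [hψdef]
    refine Submodule.sum_mem _ fun i _ => ?_
    rw [← algebraMap_smul O (v (l, i)) (ys L1 x w t i)]
    exact Submodule.smul_mem _ _ (hyW i)
  have hWV := W_le_V (O := O) (k1 := k1) (X := fun i => algebraMap L L1 (x i)) hyu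
  have hψV : ∀ l, ψ l ∈ VV k1 (fun i => algebraMap L L1 (x i)) := fun l => hWV _ (hψW l)
  have hψ0 : ∀ l, ψ l ≠ 0 := fun l => halg.ne_zero l
  have hcV : Cover (VV k1 (fun i => algebraMap L L1 (x i))) ψ := cover_V (O := O) hyu hu hcW
  obtain ⟨ell1, hell1a, hell1b⟩ := (hEXT k k1 L L1 ι x D ψ 0 hD hdisj hM.ne hψV hψ0 hcV).2 ell
    (fun c _ hc => hell c hc)
  have hχ1 := fun s => (hEXT k k1 L L1 ι x D ψ (-(d s)) hD hdisj hM.ne hψV hψ0 hcV).2 (χ s) (hχ s)
  choose χ1 hχ1a hχ1b using hχ1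
  obtain ⟨φ, hφ1, hφ2, hφ3⟩ := hPHI k1 L1 ι (fun i => algebraMap L L1 (x i)) D ψ 0 ell1 hD hM1 hψV
    halg hcV hell1a
  have hΦ := fun s => hPHI k1 L1 ι (fun i => algebraMap L L1 (x i)) D ψ (-(d s)) (χ1 s) hD hM1 hψV
    halg hcV (hχ1a s)
  choose Φ hΦ1 hΦ2 hΦ3 using hΦ
  obtain ⟨hG1, Dv, Q, _, _, _, _, _, _, _, _, _, _, _, _, _, t', ht', htt', hGD, hGDt, hQ⟩ :=
    hGAU k O k1 L1 t D ψ ht halg hfd hsep
  have hDvφ : ∀ (f : L1 →ₗ[k1] L1), (∀ l z, f (ψ l * z) = ψ l * f z) →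
      ∀ (z : Dv) (a : L1), f (algebraMap Dv L1 z * a) = algebraMap Dv L1 z * f a := by
    intro f hf z a
    exact phi_gd halg f hf ((hGD _).1 ⟨z, rfl⟩) a
  have hyint : ∀ i, IsIntegral Dv (ys L1 x w t i) := integral_y hGD ht hcW hy0
  have hys' : ∀ i, algebraMap Dv L1 t' ^ w i * algebraMap L L1 (x i) = ys L1 x w t i := by
    intro i
    rw [htt', ys, Algebra.smul_def, map_pow]
  have hψDv : ∀ l, ∃ z : Dv, algebraMap Dv L1 z = ψ l := fun l => (hGD _).2 (psi_mem_GD ht l)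
  choose ψD hψD using hψDv
  have hres2 : ∀ z : L1, IsIntegral Dv z → ∃ z' : Dv,
      dvLin φ (hDvφ φ hφ1) z = algebraMap Dv L1 (t' * z') := by
    refine hDEDE k Dv Q L1 ι t' (fun i => algebraMap L L1 (x i)) w
      (fun i : Fin 2 => ψD (Fin.castLE hD i)) (fun i l => v (Fin.castLE hD i, l)) n d
      (dvLin φ (hDvφ φ hφ1)) (fun s => dvLin (Φ s) (hDvφ (Φ s) (hΦ1 s))) ht' hw ?_ ?_ ?_ ?_ ?_ ?_
    · intro i
      rw [hys']
      exact hyint i
    · intro i
      rw [hψD, hψdef]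
      exact Finset.sum_congr rfl fun l _ => by rw [hys']
    · rintro α β ⟨z, hz⟩
      have hij : Fin.castLE hD 0 ≠ Fin.castLE hD 1 := by
        intro h
        have := congrArg Fin.val h
        simp at this
      refine indep_mod ht hG1 hij α β ?_
      rw [← hGDt]
      refine ⟨z, ?_⟩
      rw [← hz, map_add, Algebra.smul_def, Algebra.smul_def, map_mul, map_mul,
        ← IsScalarTower.algebraMap_apply, ← IsScalarTower.algebraMap_apply, hψD, hψD,
        ← Algebra.smul_def, ← Algebra.smul_def]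
    · intro z
      exact (hQ _).2 (hφ3 z)
    · intro s z
      exact (hQ _).2 (hΦ3 s z)
    · intro r0 M yy hpt
      have hXa : ∀ P : MvPolynomial ι k, aeval (fun i => algebraMap L L1 (x i)) P =
          algebraMap L L1 (aeval x P) := fun P => MvPolynomial.aeval_algebraMap_apply L1 x P
      have hpt' : IsPt k x yy := ⟨hpt.1, fun dd G hG h => hpt.2 dd G hG (by
        rw [hXa, h, map_zero])⟩
      obtain ⟨e, m, g, β, hg, hβ, hid⟩ := kl_point hREG hLAM hTF hp hchar hD hM hS htr ell hell d χ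
        hfg r0 M yy hpt'
      obtain ⟨G, hGh, hGg, hGy⟩ := hg
      have hB : ∀ s, ∃ B : MvPolynomial ι k, aeval x B = β s ∧
          (B = 0 ∨ ∃ e' : ℕ, B.IsHomogeneous e' ∧ (e' : ℤ) + M + d s = (p ^ e : ℕ) * m) := by
        intro s
        rcases hβ s with h | ⟨e', he', h⟩
        · exact ⟨0, by rw [map_zero, h], Or.inl rfl⟩
        · obtain ⟨B, hB1, hB2⟩ := Y785.GS.exists_hom x h
          exact ⟨B, hB2, Or.inr ⟨e', hB1, he'⟩⟩
      choose B hB1 hB2 using hB
      have hgm : g ∈ (VV k x) ^ m := by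
        rw [← hGg]
        exact Y785.GS.hom_mem x hGh
      have hcM : x r0 ^ M ∈ (VV k x) ^ M := Submodule.pow_mem_pow _ (hxV r0) M
      refine ⟨p ^ e, m, G, B, Nat.one_le_pow _ _ hp.pos, hGh, hGy, hB2, ?_⟩
      rintro σ ⟨z, hz⟩
      have hk := hKLH k O k1 L L1 ι x p D e m M n t ψ d ell χ ell1 χ1 φ Φ g (x r0 ^ M) β hp hchar
        hD ht hdisj hM hM1 hψV halg hcV hell1a hell1b hχ1a hχ1b hφ1 hφ2 hΦ1 hΦ2 hgm hcM hβ hid σ
      have hk1 : ∑ s, Φ s (algebraMap L L1 (β s) * algebraMap L L1 (x r0 ^ M) * σ ^ p ^ e) ∈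
          GDt t ψ := by
        rw [← hGDt]
        refine ⟨z, ?_⟩
        rw [← hz]
        refine Finset.sum_congr rfl fun s _ => ?_
        rw [hXa, hB1, map_pow]
        rfl
      have hk2 := hk hk1
      rw [← hGDt] at hk2
      obtain ⟨z', hz'⟩ := hk2
      refine ⟨z', ?_⟩
      rw [hz', hXa, hGg]
      rfl
  -- the contradiction
  obtain ⟨v0, hv0, hrep⟩ := (hTOP O L1 ι D (Submodule.span O (Set.range (ys L1 x w t)))
    (ys L1 x w t) ψ 0 hD hyW hy0 hψW hψ0 (cover_self _) hcW).2.1 _ (cocyc_int (k := k) hc0)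
  have hrep' := hRCH O k1 L1 ι D _ (VV k1 (fun i => algebraMap L L1 (x i))) (ys L1 x w t)
    (fun i => algebraMap L L1 (x i)) (fun i => algebraMap O k1 (t ^ w i)) ψ 0 _ v0 (by omega)
    hWV hXV hu hyu hrep
  have hv1 : ell1 v0 = 1 := by
    rw [hell1b c0 v0 (cocyc_of_W hc0) hrep', hellc, map_one]
  obtain ⟨N, e, he, hmem⟩ := hv0
  have hprod : ∏ l, ψ l ∈ (Submodule.span O (Set.range (ys L1 x w t))) ^ D := by
    have h1 := Y968.GS.prod_mem_pow (Submodule.span O (Set.range (ys L1 x w t))) ψ hψW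
      Finset.univ
    rwa [Finset.card_univ, Fintype.card_fin] at h1
  have he' : D + e = (N + 1) * D := by
    rw [Finset.card_univ, Fintype.card_fin] at he
    have : (e : ℤ) = ((N * D : ℕ) : ℤ) := by rw [he]; push_cast; ring
    have h2 : e = N * D := by exact_mod_cast this
    rw [h2]
    ring
  have hf0 : (∏ l, ψ l) ^ (N + 1) * v0 ∈
      (Submodule.span O (Set.range (ys L1 x w t))) ^ ((N + 1) * D) := by
    rw [← he', pow_add, pow_succ', mul_assoc]
    exact Submodule.mul_mem_mul hprod hmem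
  obtain ⟨z', hz'⟩ := hres2 _ (integral_W hGD ht hyint _ _ hf0)
  refine final_contra ht hψ0 hG1 ell1 N v0 hv1 ?_
  rw [← hφ2 _ _ (W_pow_le hyu hu _ _ hf0), ← hGDt]
  exact ⟨z', hz'.symm⟩

end core

/-- KL: integral cocycles of top level are coboundaries. -/
theorem kl : S_TOP → S_RCH → S_NND → S_FG → S_REG → S_LAM → S_EXT → S_PHI → S_GAU → S_KLH →
    S_PSI1 → S_PSI2 → S_BCM → S_DEDE → S_TFALL → S_KL := by
  intro hTOP hRCH hNND hFG hREG hLAM hEXT hPHI hGAU hKLH hPSI1 hPSI2 hBCM hDEDE hTF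
  intro k L ι _ _ _ _ _ _ p D x w hp hchar hD hM hS htr hw c0 hc0
  obtain ⟨L1, _, _, _, _, _, _, hdisj, hM1, htr1, -, -⟩ :=
    hBCM k (FractionRing (PowerSeries k)) L ι x D hM htr
  let a1 : Algebra (PowerSeries k) L1 := ((algebraMap (FractionRing (PowerSeries k)) L1).comp
    (algebraMap (PowerSeries k) (FractionRing (PowerSeries k)))).toAlgebra
  have t1 : IsScalarTower (PowerSeries k) (FractionRing (PowerSeries k)) L1 :=
    IsScalarTower.of_algebraMap_eq' rfl
  have t2 : IsScalarTower k (PowerSeries k) L1 := by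
    apply IsScalarTower.of_algebraMap_eq
    intro c
    rw [IsScalarTower.algebraMap_apply k (FractionRing (PowerSeries k)) L1,
      IsScalarTower.algebraMap_apply k (PowerSeries k) (FractionRing (PowerSeries k))]
    rfl
  exact kl_core (O := PowerSeries k) (k1 := FractionRing (PowerSeries k)) (L1 := L1) hTOP hRCH hNND
    hFG hREG hLAM hEXT hPHI hGAU hKLH hPSI1 hPSI2 hDEDE hTF PowerSeries.X
    PowerSeries.X_irreducible (fun o => ⟨PowerSeries.constantCoeff o, by
      rw [PowerSeries.X_dvd_iff, map_sub, PowerSeries.algebraMap_apply,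
        PowerSeries.constantCoeff_C]
      simp⟩) hp hchar hD hdisj hM hS htr hM1 htr1 hw hc0

end Pool.Agent.Y761.GS
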