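import Pool.Agent.Y234.GS.StmB

/-!
# Project GS: base change of a model, part 1

The lemmas `exists_point` and `isDomain_tensor` are copied from `Pool/Agent/H920R2/Cu10.lean`.
-/

set_option autoImplicit false

namespace Pool.Agent.Y761.GS

open MvPolynomial TensorProduct Pool.Agent.Y234.GS

section dom

variable {k : Type} [Field k] [IsAlgClosed k]

/-- The points of an affine variety over an algebraically closed field are dense. -/
lemma exists_point {A : Type} [CommRing A] [IsDomain A] [Algebra k A]
    [Algebra.FiniteType k A] {c : A} (hc : c ≠ 0) : ∃ φ : A →ₐ[k] k, φ c ≠ 0 := by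
  let D := Localization.Away c
  have hnt : Nontrivial D := by
    have : IsDomain D := IsLocalization.isDomain_localization
      (powers_le_nonZeroDivisors_of_noZeroDivisors hc)
    infer_instance
  have hftD : Algebra.FiniteType k D := by
    have h1 : Algebra.FiniteType A D :=
      IsLocalization.finiteType_of_monoid_fg (Submonoid.powers c) D
    exact Algebra.FiniteType.trans inferInstance h1
  obtain ⟨M, hM⟩ := Ideal.exists_maximal D
  let _ : Field (D ⧸ M) := Ideal.Quotient.field M
  have hfin : Module.Finite k (D ⧸ M) := finite_of_finite_type_of_isJacobsonRing k (D ⧸ M)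
  have hbij : Function.Bijective (algebraMap k (D ⧸ M)) :=
    IsAlgClosed.algebraMap_bijective_of_isIntegral
  let e : k ≃ₐ[k] (D ⧸ M) := AlgEquiv.ofBijective (Algebra.ofId k (D ⧸ M)) hbij
  let φ : A →ₐ[k] k := (e.symm : (D ⧸ M) →ₐ[k] k).comp
    ((Ideal.Quotient.mkₐ k M).comp (IsScalarTower.toAlgHom k A D))
  refine ⟨φ, ?_⟩
  have hu : IsUnit (algebraMap A D c) :=
    IsLocalization.map_units D (⟨c, Submonoid.mem_powers c⟩ : Submonoid.powers c)
  have h1 : IsUnit (φ c) := hu.map ((e.symm : (D ⧸ M) →ₐ[k] k).comp (Ideal.Quotient.mkₐ k M))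
  exact h1.ne_zero

/-- The product of two affine varieties over an algebraically closed field is integral. -/
theorem isDomain_tensor {A A' : Type} [CommRing A] [IsDomain A] [Algebra k A]
    [Algebra.FiniteType k A] [CommRing A'] [IsDomain A'] [Algebra k A'] :
    IsDomain (A ⊗[k] A') := by
  classical
  let b := Module.Basis.ofVectorSpace k A'
  let bA := Algebra.TensorProduct.basis A b
  have hnt : Nontrivial (A ⊗[k] A') := by
    obtain ⟨φ, -⟩ := exists_point (k := k) (one_ne_zero (α := A))
    let e : A ⊗[k] A' →ₐ[k] A' := Algebra.TensorProduct.lift ((Algebra.ofId k A').comp φ)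
      (AlgHom.id k A') (fun _ _ => Commute.all _ _)
    exact e.toRingHom.domain_nontrivial
  have hnz : NoZeroDivisors (A ⊗[k] A') := by
    constructor
    intro x y hxy
    by_contra hcon
    push Not at hcon
    obtain ⟨hx, hy⟩ := hcon
    obtain ⟨i, hi⟩ : ∃ i, bA.repr x i ≠ 0 := by
      by_contra h
      push Not at h
      apply hx
      apply bA.repr.injective
      rw [map_zero]
      ext i
      exact h i
    obtain ⟨l, hl⟩ : ∃ i, bA.repr y i ≠ 0 := by
      by_contra h
      push Not at h
      apply hy
      apply bA.repr.injective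
      rw [map_zero]
      ext i
      exact h i
    obtain ⟨φ, hφ⟩ := exists_point (k := k) (mul_ne_zero hi hl)
    rw [map_mul] at hφ
    let e : A ⊗[k] A' →ₐ[k] A' := Algebra.TensorProduct.lift ((Algebra.ofId k A').comp φ)
      (AlgHom.id k A') (fun _ _ => Commute.all _ _)
    have he : ∀ z i, b.repr (e z) i = φ (bA.repr z i) := by
      intro z i
      induction z using TensorProduct.induction_on with
      | zero => simp
      | tmul a a' =>
        rw [Algebra.TensorProduct.basis_repr_tmul]
        have h1 : e (a ⊗ₜ a') = φ a • a' := by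
          rw [Algebra.TensorProduct.lift_tmul, Algebra.smul_def]
          rfl
        rw [h1, map_smul, Finsupp.smul_apply, Finsupp.smul_apply, Finsupp.mapRange_apply,
          smul_eq_mul, smul_eq_mul, map_mul, AlgHom.commutes]
        rfl
      | add z z' hz hz' =>
        rw [map_add, map_add, map_add, Finsupp.add_apply, Finsupp.add_apply, map_add, hz, hz']
    have h1 : e x * e y = 0 := by rw [← map_mul, hxy, map_zero]
    rcases mul_eq_zero.1 h1 with h2 | h2
    · apply hφ
      rw [← he x i, h2, map_zero, Finsupp.zero_apply, zero_mul]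
    · apply hφ
      rw [← he y l, h2, map_zero, Finsupp.zero_apply, mul_zero]
  exact NoZeroDivisors.to_isDomain _

end dom

section base

variable (k k1 : Type) {L : Type} [Field k] [Field k1] [Field L] [Algebra k k1] [Algebra k L]
  {ι : Type} (x : ι → L)

/-- Evaluation of polynomials over `k1` in the tensor product. -/
noncomputable def evT : MvPolynomial ι k1 →ₐ[k1] k1 ⊗[k] L :=
  aeval (fun i => (1 : k1) ⊗ₜ[k] x i)

lemma evT_map (H : MvPolynomial ι k) :
    evT k k1 x (map (algebraMap k k1) H) = (1 : k1) ⊗ₜ[k] aeval x H := by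
  unfold evT
  rw [MvPolynomial.aeval_map_algebraMap]
  exact (MvPolynomial.comp_aeval_apply x
    (Algebra.TensorProduct.includeRight : L →ₐ[k] k1 ⊗[k] L) H).symm

lemma evT_eq (G : MvPolynomial ι k1) :
    evT k k1 x G = (aeval x : MvPolynomial ι k →ₐ[k] L).toLinearMap.lTensor k1
      ((algebraTensorAlgEquiv k k1).symm G) := by
  obtain ⟨g, rfl⟩ := (algebraTensorAlgEquiv (σ := ι) k k1).surjective G
  rw [AlgEquiv.symm_apply_apply]
  induction g using TensorProduct.induction_on with
  | zero => simp
  | tmul a p =>
    rw [algebraTensorAlgEquiv_tmul, map_smul, evT_map, LinearMap.lTensor_tmul,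
      TensorProduct.smul_tmul', smul_eq_mul, mul_one]
    rfl
  | add a b ha hb => rw [map_add, map_add, map_add, ha, hb]

/-- The relations over `k1` are combinations of relations over `k`. -/
lemma span_of_evT {G : MvPolynomial ι k1} (hG : evT k k1 x G = 0) :
    G ∈ Submodule.span k1 {G' | ∃ H : MvPolynomial ι k, aeval x H = 0 ∧
      G' = map (algebraMap k k1) H} := by
  rw [evT_eq] at hG
  obtain ⟨g, hg⟩ := (Module.Flat.lTensor_exact k1 (LinearMap.exact_subtype_ker_map
    (aeval x : MvPolynomial ι k →ₐ[k] L).toLinearMap) _).1 hG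
  have h4 : G = algebraTensorAlgEquiv k k1 ((LinearMap.ker
        (aeval x : MvPolynomial ι k →ₐ[k] L).toLinearMap).subtype.lTensor k1 g) := by
    rw [hg, AlgEquiv.apply_symm_apply]
  rw [h4]
  clear h4 hg hG
  induction g using TensorProduct.induction_on with
  | zero => simp
  | tmul a p =>
    rw [LinearMap.lTensor_tmul, algebraTensorAlgEquiv_tmul]
    exact Submodule.smul_mem _ _ (Submodule.subset_span ⟨_, p.2, rfl⟩)
  | add a b ha hb =>
    rw [map_add, map_add]
    exact add_mem ha hb

/-- Denominators. -/
lemma exists_den (hgen : ∀ a : L, ∃ G H : MvPolynomial ι k, aeval x H ≠ 0 ∧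
    a * aeval x H = aeval x G) (t : k1 ⊗[k] L) :
    ∃ (H : MvPolynomial ι k) (G : MvPolynomial ι k1), aeval x H ≠ 0 ∧
      t * evT k k1 x (map (algebraMap k k1) H) = evT k k1 x G := by
  induction t using TensorProduct.induction_on with
  | zero => exact ⟨1, 0, by simp, by simp⟩
  | tmul c l =>
    obtain ⟨G, H, hH, h⟩ := hgen l
    refine ⟨H, c • map (algebraMap k k1) G, hH, ?_⟩
    rw [map_smul, evT_map, evT_map, ← h, Algebra.TensorProduct.tmul_mul_tmul,
      TensorProduct.smul_tmul', smul_eq_mul]
  | add a b ha hb =>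
    obtain ⟨H, G, hH, h⟩ := ha
    obtain ⟨H', G', hH', h'⟩ := hb
    refine ⟨H * H', G * map (algebraMap k k1) H' + G' * map (algebraMap k k1) H, ?_, ?_⟩
    · rw [map_mul]
      exact mul_ne_zero hH hH'
    · rw [map_mul, map_mul, map_add, map_mul, map_mul, ← h, ← h']
      ring

/-- The tensor product with an extension field is a domain. -/
theorem isDomain_T [Finite ι] [IsAlgClosed k] (hgen : ∀ a : L, ∃ G H : MvPolynomial ι k, aeval x H ≠ 0 ∧
    a * aeval x H = aeval x G) : IsDomain (k1 ⊗[k] L) := by
  let A := Algebra.adjoin k (Set.range x)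
  have hft : Algebra.FiniteType k A := Algebra.FiniteType.adjoin_of_finite (Set.finite_range x)
  have hd : IsDomain (k1 ⊗[k] A) := by
    have := isDomain_tensor (k := k) (A := A) (A' := k1)
    exact (Algebra.TensorProduct.comm k k1 A).toMulEquiv.isDomain _
  let f : k1 ⊗[k] A →ₐ[k] k1 ⊗[k] L := Algebra.TensorProduct.map (AlgHom.id k k1) A.val
  have hf : Function.Injective f := by
    have := Module.Flat.lTensor_preserves_injective_linearMap (M := k1) A.val.toLinearMap
      Subtype.val_injective
    exact this
  have hr : ∀ G : MvPolynomial ι k1, ∃ s, f s = evT k k1 x G := by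
    intro G
    obtain ⟨g, rfl⟩ := (algebraTensorAlgEquiv (σ := ι) k k1).surjective G
    induction g using TensorProduct.induction_on with
    | zero => exact ⟨0, by simp⟩
    | tmul a p =>
      refine ⟨a ⊗ₜ ⟨aeval x p, ?_⟩, ?_⟩
      · change aeval x p ∈ Algebra.adjoin k (Set.range x)
        rw [Algebra.adjoin_range_eq_range_aeval]
        exact ⟨p, rfl⟩
      · rw [algebraTensorAlgEquiv_tmul, map_smul, evT_map, TensorProduct.smul_tmul', smul_eq_mul,
          mul_one]
        rfl
    | add a b ha hb =>
      obtain ⟨s, hs⟩ := ha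
      obtain ⟨s', hs'⟩ := hb
      exact ⟨s + s', by rw [map_add, map_add, map_add, hs, hs']⟩
  have hu : ∀ H : MvPolynomial ι k, aeval x H ≠ 0 →
      IsUnit (evT k k1 x (map (algebraMap k k1) H)) := by
    intro H hH
    rw [evT_map]
    exact (IsUnit.mk0 _ hH).map
      (Algebra.TensorProduct.includeRight : L →ₐ[k] k1 ⊗[k] L)
  have hnz : NoZeroDivisors (k1 ⊗[k] L) := by
    constructor
    intro a b hab
    obtain ⟨H, G, hH, h⟩ := exists_den k k1 x hgen a
    obtain ⟨H', G', hH', h'⟩ := exists_den k k1 x hgen b
    obtain ⟨s, hs⟩ := hr G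
    obtain ⟨s', hs'⟩ := hr G'
    have h1 : f (s * s') = 0 := by
      rw [map_mul, hs, hs', ← h, ← h']
      linear_combination (evT k k1 x (map (algebraMap k k1) H) *
        evT k k1 x (map (algebraMap k k1) H')) * hab
    have h2 : s * s' = 0 := hf (by rw [h1, map_zero])
    rcases mul_eq_zero.1 h2 with h3 | h3
    · left
      rw [h3, map_zero] at hs
      rw [← hs] at h
      exact ((hu H hH).mul_left_eq_zero).1 h
    · right
      rw [h3, map_zero] at hs'
      rw [← hs'] at h'
      exact ((hu H' hH').mul_left_eq_zero).1 h'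
  have hnt : Nontrivial (k1 ⊗[k] L) := by
    refine ⟨0, 1, ?_⟩
    intro h0
    have h1 : (1 : k1 ⊗[k] A) = 0 := hf (by rw [map_one, map_zero, h0])
    exact one_ne_zero h1
  exact NoZeroDivisors.to_isDomain _

end base

end Pool.Agent.Y761.GS
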