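import Pool.Agent.Y234.GS.StmC
import Pool.Agent.Y968.GS.Top
import Pool.Agent.Y785.GS.Bas
import Pool.Agent.Y978.GS.Base

/-!
# Project GS: assembly of the top level theorem, part 1
-/

set_option autoImplicit false
set_option linter.unusedSectionVars false

namespace Pool.Agent.Y761.GS

open MvPolynomial Pool.Agent.Y234.GS

section ell

variable {k L ι : Type} [Field k] [Field L] [Algebra k L] [LinearOrder ι] [Fintype ι]

/-- A functional that detects a cocycle that is not a coboundary. -/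
lemma exists_ell (x : ι → L) {D : ℕ} (hD : 2 ≤ D) {c0 : Finset ι → L}
    (hc0 : ¬ Cobd (VV k x) x 0 D c0) :
    ∃ ell : (Finset ι → L) →ₗ[k] k, (∀ c, Cobd (VV k x) x 0 D c → ell c = 0) ∧ ell c0 = 1 := by
  have hx : ∀ i, x i ∈ VV k x := fun i => Submodule.subset_span ⟨i, rfl⟩
  let N : Submodule k (Finset ι → L) :=
    { carrier := {c | Cobd (VV k x) x 0 D c}
      add_mem' := by
        rintro a b ⟨a', ha', ha⟩ ⟨b', hb', hb⟩
        refine ⟨a' + b', fun S hS => Y968.GS.sec_add _ _ hx 0 S _ _ (ha' S hS) (hb' S hS), ?_⟩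
        intro S hS
        rw [Y968.GS.dd_add, ← ha S hS, ← hb S hS]
        rfl
      zero_mem' := by
        refine ⟨fun _ => 0, fun S hS => Y785.GS.sec_zero 0 (Finset.card_pos.1 (by omega)), ?_⟩
        intro S hS
        rw [Y978.GS.dd_zero]
        rfl
      smul_mem' := by
        rintro r a ⟨a', ha', ha⟩
        refine ⟨fun S => r • a' S, fun S hS => Y968.GS.sec_smul _ _ 0 S _ _ (ha' S hS), ?_⟩
        intro S hS
        rw [Y968.GS.dd_smul, ← ha S hS]
        rfl }
  have hN : c0 ∉ N := hc0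
  obtain ⟨f, hf1, hf2⟩ := Submodule.exists_dual_map_eq_bot_of_notMem hN inferInstance
  refine ⟨(f c0)⁻¹ • f, fun c hc => ?_, ?_⟩
  · have h1 : f c ∈ N.map f := Submodule.mem_map_of_mem hc
    rw [hf2, Submodule.mem_bot] at h1
    rw [LinearMap.smul_apply, h1, smul_zero]
  · rw [LinearMap.smul_apply, smul_eq_mul, inv_mul_cancel₀ hf1]

end ell

section gd

variable {O k1 L1 : Type} [CommRing O] [IsDomain O] [Field k1] [Field L1] [Algebra O k1]
  [IsFractionRing O k1] [Algebra k1 L1] [Algebra O L1] [IsScalarTower O k1 L1] {D : ℕ}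
  {ψ : Fin D → L1} {t : O}

include k1 in
lemma aeval_ne (hψ : AlgebraicIndependent k1 ψ) {F : MvPolynomial (Fin D) O} (hF : F ≠ 0) :
    aeval ψ F ≠ 0 := by
  rw [← MvPolynomial.aeval_map_algebraMap k1]
  intro h
  have h1 := (algebraicIndependent_iff.1 hψ) _ h
  exact hF (map_injective _ (IsFractionRing.injective O k1) (by rw [h1, map_zero]))

lemma ne_of_coeff {F : MvPolynomial (Fin D) O} (hF : ∃ b, ¬ t ∣ coeff b F) : F ≠ 0 := by
  rintro rfl
  obtain ⟨b, hb⟩ := hF
  exact hb (by rw [coeff_zero]; exact dvd_zero t)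

lemma phi_aeval (φ : L1 →ₗ[k1] L1) (hφ : ∀ l z, φ (ψ l * z) = ψ l * φ z)
    (G : MvPolynomial (Fin D) O) (a : L1) : φ (aeval ψ G * a) = aeval ψ G * φ a := by
  induction G using MvPolynomial.induction_on generalizing a with
  | C c =>
    rw [MvPolynomial.aeval_C, IsScalarTower.algebraMap_apply O k1 L1, ← Algebra.smul_def,
      ← Algebra.smul_def, map_smul]
  | add p q hp hq => rw [map_add, add_mul, map_add, hp, hq, add_mul]
  | mul_X p l hp => rw [map_mul (aeval ψ), aeval_X, mul_assoc, hp, hφ, mul_assoc]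

lemma phi_gd (hψ : AlgebraicIndependent k1 ψ) (φ : L1 →ₗ[k1] L1)
    (hφ : ∀ l z, φ (ψ l * z) = ψ l * φ z) {z : L1} (hz : z ∈ GD t ψ) (a : L1) :
    φ (z * a) = z * φ a := by
  obtain ⟨F, N, hF, h⟩ := hz
  have hne := aeval_ne (k1 := k1) hψ (ne_of_coeff hF)
  apply mul_left_cancel₀ hne
  rw [← phi_aeval φ hφ, ← mul_assoc, mul_comm (aeval ψ F) z, h, phi_aeval φ hφ, ← h]
  ring

lemma algebraMap_mem_GD (ht : Irreducible t) (o : O) : algebraMap O L1 o ∈ GD t ψ := by
  refine ⟨1, C o, ⟨0, ?_⟩, ?_⟩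
  · rw [coeff_zero_one]
    exact fun h => ht.not_isUnit (isUnit_of_dvd_one h)
  · rw [map_one, mul_one, MvPolynomial.aeval_C]

lemma psi_mem_GD (ht : Irreducible t) (l : Fin D) : ψ l ∈ GD t ψ := by
  refine ⟨1, X l, ⟨0, ?_⟩, ?_⟩
  · rw [coeff_zero_one]
    exact fun h => ht.not_isUnit (isUnit_of_dvd_one h)
  · rw [map_one, mul_one, MvPolynomial.aeval_X]

/-- A `k1`-linear map as a linear map over another ring. -/
noncomputable def dvLin {Dv : Type} [CommRing Dv] [Algebra Dv L1] (φ : L1 →ₗ[k1] L1)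
    (h : ∀ (z : Dv) (a : L1), φ (algebraMap Dv L1 z * a) = algebraMap Dv L1 z * φ a) :
    L1 →ₗ[Dv] L1 where
  toFun := φ
  map_add' := φ.map_add
  map_smul' z a := by rw [Algebra.smul_def, h, RingHom.id_apply, Algebra.smul_def]

end gd

end Pool.Agent.Y761.GS
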