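import Pool.Agent.Y761.GS.Kl1

/-!
# Project GS: assembly of the top level theorem, part 2
-/

set_option autoImplicit false
set_option linter.unusedSectionVars false

namespace Pool.Agent.Y761.GS

open MvPolynomial Pool.Agent.Y234.GS
open scoped Pointwise

section cover

variable {O k1 L1 : Type} [CommRing O] [Field k1] [Field L1] [Algebra O k1]
  [Algebra k1 L1] [Algebra O L1] [IsScalarTower O k1 L1] {D : ℕ}
  {ψ : Fin D → L1} {ι : Type} [Fintype ι] {X y : ι → L1} {u : ι → k1}

lemma W_le_V (hy : ∀ i, y i = u i • X i) :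
    ∀ a ∈ Submodule.span O (Set.range y), a ∈ VV k1 X := by
  intro a ha
  induction ha using Submodule.span_induction with
  | mem z hz =>
    obtain ⟨i, rfl⟩ := hz
    rw [hy]
    exact Submodule.smul_mem _ _ (Submodule.subset_span ⟨i, rfl⟩)
  | zero => exact zero_mem _
  | add a b _ _ ha hb => exact add_mem ha hb
  | smul c a _ ha =>
    rw [← algebraMap_smul k1 c a]
    exact Submodule.smul_mem _ _ ha

lemma VV_eq (hy : ∀ i, y i = u i • X i) (hu : ∀ i, u i ≠ 0) :
    VV k1 X = Submodule.span k1 (Set.range y) := by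
  apply le_antisymm
  · apply Submodule.span_le.2
    rintro _ ⟨i, rfl⟩
    have h1 : X i = (u i)⁻¹ • y i := by rw [hy, smul_smul, inv_mul_cancel₀ (hu i), one_smul]
    rw [h1]
    exact Submodule.smul_mem _ _ (Submodule.subset_span ⟨i, rfl⟩)
  · apply Submodule.span_le.2
    rintro _ ⟨i, rfl⟩
    rw [hy]
    exact Submodule.smul_mem _ _ (Submodule.subset_span ⟨i, rfl⟩)

lemma W_pow_le (hy : ∀ i, y i = u i • X i) (hu : ∀ i, u i ≠ 0) (e : ℕ) :
    ∀ a ∈ (Submodule.span O (Set.range y)) ^ e, a ∈ (VV k1 X) ^ e := by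
  intro a ha
  rw [Submodule.span_pow] at ha
  rw [VV_eq hy hu, Submodule.span_pow]
  induction ha using Submodule.span_induction with
  | mem z hz => exact Submodule.subset_span hz
  | zero => exact zero_mem _
  | add a b _ _ ha hb => exact add_mem ha hb
  | smul c a _ ha =>
    rw [← algebraMap_smul k1 c a]
    exact Submodule.smul_mem _ _ ha

lemma cover_V (hy : ∀ i, y i = u i • X i) (hu : ∀ i, u i ≠ 0)
    (hc : Cover (Submodule.span O (Set.range y)) ψ) : Cover (VV k1 X) ψ := by
  obtain ⟨N, hN⟩ := hc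
  refine ⟨N, fun a ha => ?_⟩
  rw [VV_eq hy hu, Submodule.span_pow] at ha
  have hz : ∀ z ∈ (Set.range y) ^ (N + 1), ∃ r : Fin D → L1, (∀ i, r i ∈ (VV k1 X) ^ N) ∧
      z = ∑ i, ψ i * r i := by
    intro z hz
    have h1 : z ∈ (Submodule.span O (Set.range y)) ^ (N + 1) := by
      rw [Submodule.span_pow]
      exact Submodule.subset_span hz
    obtain ⟨r, hr, h⟩ := hN z h1
    exact ⟨r, fun i => W_pow_le hy hu N _ (hr i), h⟩
  induction ha using Submodule.span_induction with
  | mem z h => exact hz z h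
  | zero => exact ⟨fun _ => 0, fun _ => zero_mem _, by simp⟩
  | add a b _ _ ha hb =>
    obtain ⟨r, hr, rfl⟩ := ha
    obtain ⟨r', hr', rfl⟩ := hb
    refine ⟨fun i => r i + r' i, fun i => add_mem (hr i) (hr' i), ?_⟩
    rw [← Finset.sum_add_distrib]
    exact Finset.sum_congr rfl fun i _ => by ring
  | smul c a _ ha =>
    obtain ⟨r, hr, rfl⟩ := ha
    refine ⟨fun i => c • r i, fun i => Submodule.smul_mem _ _ (hr i), ?_⟩
    rw [Finset.smul_sum]
    exact Finset.sum_congr rfl fun i _ => by rw [mul_smul_comm]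

end cover

section integral

variable {O k1 L1 : Type} [CommRing O] [IsDomain O] [Field L1] [Algebra O L1] {D : ℕ}
  {ψ : Fin D → L1} {t : O} {ι : Type} [Fintype ι] {y : ι → L1}
  {Dv : Type} [CommRing Dv] [Algebra Dv L1]

lemma smul_of_GD (hGD : ∀ z : L1, (∃ z' : Dv, algebraMap Dv L1 z' = z) ↔ z ∈ GD t ψ)
    (ht : Irreducible t) (M : Submodule Dv L1) (o : O) {a : L1} (ha : a ∈ M) : o • a ∈ M := by
  obtain ⟨o', ho'⟩ := (hGD _).2 (algebraMap_mem_GD (ψ := ψ) ht o)
  rw [Algebra.smul_def, ← ho', ← Algebra.smul_def]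
  exact M.smul_mem _ ha

lemma psi_of_GD (hGD : ∀ z : L1, (∃ z' : Dv, algebraMap Dv L1 z' = z) ↔ z ∈ GD t ψ)
    (ht : Irreducible t) (M : Submodule Dv L1) (l : Fin D) {a : L1} (ha : a ∈ M) :
    ψ l * a ∈ M := by
  obtain ⟨o', ho'⟩ := (hGD _).2 (psi_mem_GD (ψ := ψ) ht l)
  rw [← ho', ← Algebra.smul_def]
  exact M.smul_mem _ ha

lemma integral_y (hGD : ∀ z : L1, (∃ z' : Dv, algebraMap Dv L1 z' = z) ↔ z ∈ GD t ψ)
    (ht : Irreducible t) (hc : Cover (Submodule.span O (Set.range y)) ψ) (hy0 : ∀ i, y i ≠ 0)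
    (i : ι) : IsIntegral Dv (y i) := by
  obtain ⟨N, hN⟩ := hc
  set W := Submodule.span O (Set.range y) with hW
  have hWfg : (W ^ N).FG := by
    apply Submodule.FG.pow
    exact Submodule.fg_span (Set.finite_range y)
  obtain ⟨s, hs⟩ := hWfg
  let M : Submodule Dv L1 := Submodule.span Dv (s : Set L1)
  have hWM : ∀ a ∈ W ^ N, a ∈ M := by
    intro a ha
    rw [← hs] at ha
    induction ha using Submodule.span_induction with
    | mem z hz => exact Submodule.subset_span hz
    | zero => exact zero_mem _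
    | add a b _ _ ha hb => exact add_mem ha hb
    | smul c a _ ha => exact smul_of_GD hGD ht M c ha
  have hyW : y i ∈ W := Submodule.subset_span ⟨i, rfl⟩
  refine isIntegral_of_smul_mem_submodule M ?_ ⟨s, rfl⟩ (y i) ?_
  · intro h0
    have h1 := hWM _ (Submodule.pow_mem_pow W hyW N)
    rw [h0, Submodule.mem_bot] at h1
    exact pow_ne_zero N (hy0 i) h1
  · intro a ha
    rw [smul_eq_mul]
    induction ha using Submodule.span_induction with
    | mem z hz =>
      have h1 : z ∈ W ^ N := by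
        rw [← hs]
        exact Submodule.subset_span hz
      have h2 : y i * z ∈ W ^ (N + 1) := by
        rw [pow_succ']
        exact Submodule.mul_mem_mul hyW h1
      obtain ⟨r, hr, h⟩ := hN _ h2
      rw [h]
      exact Submodule.sum_mem _ fun l _ => psi_of_GD hGD ht M l (hWM _ (hr l))
    | zero => rw [mul_zero]; exact zero_mem _
    | add a b _ _ ha hb => rw [mul_add]; exact add_mem ha hb
    | smul c a _ ha => rw [mul_smul_comm]; exact M.smul_mem _ ha

lemma integral_W (hGD : ∀ z : L1, (∃ z' : Dv, algebraMap Dv L1 z' = z) ↔ z ∈ GD t ψ)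
    (ht : Irreducible t) (hy : ∀ i, IsIntegral Dv (y i)) (e : ℕ) :
    ∀ a ∈ (Submodule.span O (Set.range y)) ^ e, IsIntegral Dv a := by
  have hO : ∀ (o : O) (a : L1), IsIntegral Dv a → IsIntegral Dv (o • a) := by
    intro o a ha
    obtain ⟨o', ho'⟩ := (hGD _).2 (algebraMap_mem_GD (ψ := ψ) ht o)
    rw [Algebra.smul_def, ← ho']
    exact isIntegral_algebraMap.mul ha
  have h1 : ∀ a ∈ Submodule.span O (Set.range y), IsIntegral Dv a := by
    intro a ha
    induction ha using Submodule.span_induction with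
    | mem z hz =>
      obtain ⟨i, rfl⟩ := hz
      exact hy i
    | zero => exact isIntegral_zero
    | add a b _ _ ha hb => exact ha.add hb
    | smul c a _ ha => exact hO c a ha
  induction e with
  | zero =>
    intro a ha
    rw [pow_zero, Submodule.mem_one] at ha
    obtain ⟨o, rfl⟩ := ha
    have h2 := hO o 1 isIntegral_one
    rwa [Algebra.smul_def, mul_one] at h2
  | succ e ih =>
    intro a ha
    rw [pow_succ] at ha
    induction ha using Submodule.mul_induction_on' with
    | mem_mul_mem m hm n hn => exact (ih m hm).mul (h1 n hn)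
    | add a _ b _ ha hb => exact ha.add hb

end integral

section final

variable {O k1 L1 : Type} [CommRing O] [IsDomain O] [Field k1] [Field L1] [Algebra O k1]
  [IsFractionRing O k1] [Algebra k1 L1] [Algebra O L1] [IsScalarTower O k1 L1] {D : ℕ}
  {ψ : Fin D → L1} {t : O}

lemma final_contra (ht : Irreducible t) (hψ0 : ∀ l, ψ l ≠ 0)
    (hG : ∀ F : MvPolynomial (Fin D) k1, aeval ψ F ∈ GDt t ψ →
      ∀ b, ∃ o : O, coeff b F = algebraMap O k1 (t * o))
    (ell1 : L1 →ₗ[k1] k1) (N : ℕ) (v0 : L1) (hv : ell1 v0 = 1)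
    (h : phiSum ψ ell1 0 ((N + 1) * D) ((∏ l, ψ l) ^ (N + 1) * v0) ∈ GDt t ψ) : False := by
  classical
  have h0 : (((N + 1) * D : ℕ) : ℤ) - D - 0 = ((N * D : ℕ) : ℤ) := by
    push_cast
    ring
  unfold phiSum at h
  rw [if_pos (by rw [h0]; exact Int.natCast_nonneg _), h0, Int.toNat_natCast] at h
  set f0 := (∏ l, ψ l) ^ (N + 1) * v0 with hf0
  let F : MvPolynomial (Fin D) k1 := ∑ a ∈ Finset.piAntidiag (Finset.univ : Finset (Fin D)) (N * D),
    monomial (Finsupp.equivFunOnFinite.symm a) (ell1 (f0 * monz ψ (fun l => -(a l : ℤ) - 1)))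
  have hF : aeval ψ F = ∑ a ∈ Finset.piAntidiag (Finset.univ : Finset (Fin D)) (N * D),
      ell1 (f0 * monz ψ (fun l => -(a l : ℤ) - 1)) • mon ψ a := by
    rw [map_sum]
    refine Finset.sum_congr rfl fun a _ => ?_
    rw [aeval_monomial, Algebra.smul_def]
    congr 1
    rw [Finsupp.prod_fintype _ _ (fun i => pow_zero _)]
    rfl
  rw [← hF] at h
  obtain ⟨o, ho⟩ := hG F h (Finsupp.equivFunOnFinite.symm (fun _ => N))
  have hmem : (fun _ => N : Fin D → ℕ) ∈
      Finset.piAntidiag (Finset.univ : Finset (Fin D)) (N * D) := by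
    rw [Finset.mem_piAntidiag]
    refine ⟨?_, fun i _ => Finset.mem_univ i⟩
    rw [Finset.sum_const, Finset.card_univ, Fintype.card_fin, smul_eq_mul, mul_comm]
  have hco : coeff (Finsupp.equivFunOnFinite.symm (fun _ => N)) F = 1 := by
    rw [coeff_sum, Finset.sum_eq_single (fun _ => N)]
    · rw [coeff_monomial, if_pos rfl]
      have h1 : f0 * monz ψ (fun l => -(N : ℤ) - 1) = v0 := by
        unfold monz
        rw [hf0, Finset.prod_zpow]
        have h2 : (∏ l, ψ l) ≠ 0 := Finset.prod_ne_zero_iff.2 fun l _ => hψ0 l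
        rw [show (-(N : ℤ) - 1) = -((N + 1 : ℕ) : ℤ) by push_cast; ring, zpow_neg, zpow_natCast]
        field_simp
      rw [h1, hv]
    · intro a _ ha
      rw [coeff_monomial, if_neg]
      intro h1
      exact ha (Finsupp.equivFunOnFinite.symm.injective h1)
    · intro h1
      exact absurd hmem h1
  rw [hco] at ho
  have h3 : (1 : O) = t * o := by
    apply IsFractionRing.injective O k1
    rw [map_one, ho]
  exact ht.not_isUnit (IsUnit.of_mul_eq_one o h3.symm)

end final

end Pool.Agent.Y761.GS
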