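import Pool.Agent.Y761.GS.Kl2

/-!
# Project GS: assembly of the top level theorem, part 3
-/

set_option autoImplicit false
set_option linter.unusedSectionVars false

namespace Pool.Agent.Y761.GS

open MvPolynomial Pool.Agent.Y234.GS

section intc

variable {k O k1 L L1 : Type} [Field k] [CommRing O] [Field k1] [Field L] [Field L1] [Algebra k O]
  [Algebra k L] [Algebra k L1] [Algebra L L1] [Algebra O L1] [IsScalarTower k L L1]
  [IsScalarTower k O L1] {ι : Type} [LinearOrder ι] [Fintype ι] {x : ι → L} {w : ι → ℕ} {t : O}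

/-- The rescaled family. -/
def ys (L1 : Type) [Field L1] [Algebra L L1] [Algebra O L1] (x : ι → L) (w : ι → ℕ) (t : O)
    (i : ι) : L1 := t ^ w i • algebraMap L L1 (x i)

lemma mon_ys (b : ι → ℕ) :
    mon (ys L1 x w t) b = t ^ wt w b • algebraMap L L1 (mon x b) := by
  unfold mon ys wt
  rw [Finset.prod_congr rfl (fun i _ => smul_pow _ _ _), Finset.prod_smul, map_prod]
  congr 1
  · rw [← Finset.prod_pow_eq_pow_sum]
    exact Finset.prod_congr rfl fun i _ => (pow_mul _ _ _).symm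
  · exact Finset.prod_congr rfl fun i _ => (map_pow _ _ _).symm

lemma WV_int {e s : ℕ} {a : L} (ha : a ∈ WV k x w e s) :
    t ^ s • algebraMap L L1 a ∈ (Submodule.span O (Set.range (ys L1 x w t))) ^ e := by
  unfold WV at ha
  induction ha using Submodule.span_induction with
  | mem z hz =>
    obtain ⟨b, hb, hs, rfl⟩ := hz
    have hs' : wt w b ≤ s := by exact_mod_cast hs
    have h1 : t ^ s • algebraMap L L1 (mon x b) = t ^ (s - wt w b) • mon (ys L1 x w t) b := by
      rw [mon_ys, smul_smul, ← pow_add, Nat.sub_add_cancel hs']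
    rw [h1, ← hb]
    refine Submodule.smul_mem _ _ ?_
    have h2 := Y968.GS.prod_mem_pow (Submodule.span O (Set.range (ys L1 x w t)))
      (ys L1 x w t) (fun i => Submodule.subset_span ⟨i, rfl⟩)
    unfold mon deg
    clear h1 hs hs' hb h2
    have h3 : ∀ S : Finset ι, ∏ i ∈ S, ys L1 x w t i ^ b i ∈
        (Submodule.span O (Set.range (ys L1 x w t))) ^ (∑ i ∈ S, b i) := by
      classical
      intro S
      induction S using Finset.induction_on with
      | empty => rw [Finset.prod_empty, Finset.sum_empty, pow_zero]; exact Submodule.one_le.1 le_rfl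
      | insert i S hi ih =>
        rw [Finset.prod_insert hi, Finset.sum_insert hi, pow_add]
        exact Submodule.mul_mem_mul (Submodule.pow_mem_pow _ (Submodule.subset_span (Set.mem_range_self i)) _) ih
    exact h3 Finset.univ
  | zero => rw [map_zero, smul_zero]; exact zero_mem _
  | add a b _ _ ha hb => rw [map_add, smul_add]; exact add_mem ha hb
  | smul c a _ ha =>
    have h1 : t ^ s • algebraMap L L1 (c • a) =
        algebraMap k O c • (t ^ s • algebraMap L L1 a) := by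
      rw [Algebra.smul_def c a, map_mul, ← IsScalarTower.algebraMap_apply k L L1,
        IsScalarTower.algebraMap_apply k O L1, ← Algebra.smul_def, smul_comm]
    rw [h1]
    exact Submodule.smul_mem _ _ ha

lemma cocyc_int {D : ℕ} {c0 : Finset ι → L} (hc : WCocyc k x w 0 0 D c0) :
    Cocyc (Submodule.span O (Set.range (ys L1 x w t))) (ys L1 x w t) 0 D
      (fun S => algebraMap L L1 (c0 S)) := by
  constructor
  · intro S hS
    obtain ⟨N, e, he, h⟩ := hc.1 S hS
    refine ⟨N, e, he, ?_⟩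
    have h1 : (∏ i ∈ S, ys L1 x w t i) ^ N * algebraMap L L1 (c0 S) =
        t ^ (N * ∑ i ∈ S, w i) • algebraMap L L1 ((∏ i ∈ S, x i) ^ N * c0 S) := by
      unfold ys
      rw [Finset.prod_smul, smul_pow, smul_mul_assoc, map_mul, map_pow, map_prod,
        Finset.prod_pow_eq_pow_sum, ← pow_mul, mul_comm N]
    rw [h1]
    apply WV_int (k := k)
    have h2 : ((N * ∑ i ∈ S, w i : ℕ) : ℤ) = 0 + N * (∑ i ∈ S, (w i : ℤ)) := by
      push_cast
      ring
    rw [h2]
    exact h
  · intro S hS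
    have h1 := Y978.GS.dd_map (algebraMap L L1).toAddMonoidHom c0 S
    change dd (fun S => algebraMap L L1 (c0 S)) S = algebraMap L L1 (dd c0 S) at h1
    rw [h1, hc.2 S hS, map_zero]

end intc

section wsec

variable {k L : Type} [Field k] [Field L] [Algebra k L] {ι : Type} [LinearOrder ι] [Fintype ι]
  {x : ι → L} {w : ι → ℕ}

lemma WV_le (e : ℕ) (s : ℤ) : WV k x w e s ≤ (VV k x) ^ e := by
  unfold WV
  apply Submodule.span_le.2
  rintro _ ⟨b, hb, _, rfl⟩
  rw [← hb]
  exact Y785.GS.mon_mem x b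

lemma cocyc_of_W {D : ℕ} {c0 : Finset ι → L} (hc : WCocyc k x w 0 0 D c0) :
    Cocyc (VV k x) x 0 D c0 := by
  refine ⟨fun S hS => ?_, hc.2⟩
  obtain ⟨N, e, he, h⟩ := hc.1 S hS
  exact ⟨N, e, he, WV_le _ _ h⟩

end wsec

section point

variable {k L ι : Type} [Field k] [IsAlgClosed k] [Field L] [Algebra k L] [LinearOrder ι]
  [Fintype ι] {x : ι → L}

/-- The functional identity at a point. -/
lemma kl_point (hREG : S_REG) (hLAM : S_LAM) (hTF : S_TFALL) {p D : ℕ} (hp : p.Prime)
    (hchar : CharP k p) (hD : 2 ≤ D) (hM : Model k x) (hS : SmoothCharts k x)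
    (htr : Algebra.trdeg k L = (D : Cardinal)) (ell : (Finset ι → L) →ₗ[k] k)
    (hell : ∀ c, Cobd (VV k x) x 0 D c → ell c = 0) {n : ℕ} (d : Fin n → ℤ)
    (χ : Fin n → ((Finset ι → L) →ₗ[k] k))
    (hFG : ∀ (m : ℤ) (lam : (Finset ι → L) →ₗ[k] k),
        (∀ c, Cocyc (VV k x) x (-m) D c → Cobd (VV k x) x (-m) D c → lam c = 0) →
        ∃ β : Fin n → L, (∀ s, β s = 0 ∨ ∃ e : ℕ, (e : ℤ) = m - d s ∧ β s ∈ (VV k x) ^ e) ∧
          ∀ c, Cocyc (VV k x) x (-m) D c → lam c = ∑ s, χ s (fun S => β s * c S))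
    (r0 : ι) (M : ℕ) (yy : ι → k) (hpt : IsPt k x yy) :
    ∃ (e m : ℕ) (g : L) (β : Fin n → L), NZ k x yy m g ∧
      (∀ s, β s = 0 ∨ ∃ e' : ℕ, (e' : ℤ) + M + d s = (p ^ e : ℕ) * m ∧ β s ∈ (VV k x) ^ e') ∧
      (∀ ξ, Cocyc (VV k x) x (-(m : ℤ)) D ξ →
        (ell (fun S => g * ξ S)) ^ p ^ e = ∑ s, χ s (fun S => β s * (x r0 ^ M * ξ S ^ p ^ e))) := by
  have htf := hTF k L ι x p D yy hp hchar (by omega) hM hS htr hpt
  have hcM : x r0 ^ M ∈ (VV k x) ^ M :=
    Submodule.pow_mem_pow _ (Submodule.subset_span (Set.mem_range_self r0)) M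
  obtain ⟨e, m, g, hg, hreg⟩ := hREG k L ι x p D yy hp hchar hD hM hpt htf M (x r0 ^ M) hcM
    (pow_ne_zero M (hM.ne r0))
  have hgm : g ∈ (VV k x) ^ m := by
    obtain ⟨G, hG, rfl, -⟩ := hg
    exact Y785.GS.hom_mem x hG
  obtain ⟨lam, hlam1, hlam2⟩ := hLAM k L ι x p D e m M g (x r0 ^ M) ell hp hchar hD hM.ne hgm hcM
    (fun a _ ha => hell a ha) (by
      intro ξ hξ hc
      have h1 := hreg (-(m : ℤ)) ξ hξ (by
        rw [mul_neg, ← sub_eq_add_neg]
        exact hc)
      rwa [neg_add_cancel] at h1)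
  obtain ⟨β, hβ1, hβ2⟩ := hFG ((p ^ e : ℕ) * m - M) lam (by
    intro c hc hc'
    rw [neg_sub] at hc hc'
    exact hlam1 c hc hc')
  refine ⟨e, m, g, β, hg, ?_, ?_⟩
  · intro s
    rcases hβ1 s with h | ⟨e', he', h⟩
    · exact Or.inl h
    · right
      refine ⟨e', ?_, h⟩
      rw [he']
      ring
  · intro ξ hξ
    rw [hlam2 ξ hξ]
    have : CharP L p := charP_of_injective_algebraMap (algebraMap k L).injective p
    have h1 := Y785.GS.cocyc_mul hcM (Y785.GS.cocyc_pow hp e hξ)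
    rw [hβ2 (fun S => x r0 ^ M * ξ S ^ p ^ e) (by
      rw [neg_sub]
      convert h1 using 1
      ring)]

end point

end Pool.Agent.Y761.GS
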